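import Mathlib
import Pool.Agent.Y166.SM.Stm

/-!
# Curves of rank three without a common kernel vector
-/

set_option autoImplicit false
set_option linter.unusedSectionVars false

namespace Pool.Agent.Y73.SM

open Pool.Agent.Y166.SM Matrix

section alg

variable {k : Type} [Field k]

/-- A matrix with trivial kernel has a left inverse. -/
theorem exists_left_inv {m n : Type} [Fintype m] [Fintype n] [DecidableEq m] [DecidableEq n]
    (M : Matrix m n k) (h : ∀ x : n → k, M.mulVec x = 0 → x = 0) :
    ∃ L : Matrix n m k, L * M = 1 := by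
  have hk : LinearMap.ker (Matrix.toLin' M) = ⊥ := by
    rw [LinearMap.ker_eq_bot']
    intro x hx
    exact h x (by simpa using hx)
  obtain ⟨g, hg⟩ := LinearMap.exists_leftInverse_of_injective _ hk
  refine ⟨LinearMap.toMatrix' g, ?_⟩
  have h1 := congrArg LinearMap.toMatrix' hg
  rw [LinearMap.toMatrix'_comp, LinearMap.toMatrix'_toLin', LinearMap.toMatrix'_id] at h1
  exact h1

/-- The splitting of the space. -/
theorem exists_split (A B : Matrix (Fin 6) (Fin 3) k)
    (h : ∀ x : Fin 6 → k, A.transpose.mulVec x = 0 → B.transpose.mulVec x = 0 → x = 0) :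
    ∃ h1 h2 : Matrix (Fin 3) (Fin 6) k, h1 * A = 1 ∧ h1 * B = 0 ∧ h2 * A = 0 ∧ h2 * B = 1 ∧
      A * h1 + B * h2 = 1 := by
  obtain ⟨L, hL⟩ := exists_left_inv (Matrix.fromRows A.transpose B.transpose) (fun x hx => by
    rw [Matrix.fromRows_mulVec] at hx
    apply h x
    · funext i
      exact congrFun hx (Sum.inl i)
    · funext i
      exact congrFun hx (Sum.inr i))
  have h1 := congrArg Matrix.transpose hL
  rw [Matrix.transpose_mul, Matrix.transpose_fromRows, Matrix.transpose_transpose,
    Matrix.transpose_transpose, Matrix.transpose_one, ← Matrix.fromRows_toRows L.transpose] at h1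
  have h2 := (Matrix.fromCols_mul_fromRows_eq_one_comm finSumFinEquiv.symm A B
    L.transpose.toRows₁ L.transpose.toRows₂).1 h1
  rw [Matrix.fromCols_mul_fromRows] at h1
  rw [Matrix.fromRows_mul_fromCols, ← Matrix.fromBlocks_one, Matrix.fromBlocks_inj] at h2
  exact ⟨_, _, h2.1, h2.2.1, h2.2.2.1, h2.2.2.2, h1⟩

open Polynomial in
/-- Elimination. -/
theorem elim [Infinite k] (P a b c S d : Matrix (Fin 3) (Fin 3) k) (hP : P.det ≠ 0)
    (h : ∀ t : k, (P + t • a).det ≠ 0 →
      t ^ 2 • (c * (P + t • a).adjugate * b) = (P + t • a).det • (t • d + t ^ 2 • S)) :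
    d = 0 ∧ (∀ t : k, c * (P + t • a).adjugate * b = (P + t • a).det • S) ∧
      ∃ t : k, t ≠ 0 ∧ (P + t • a).det ≠ 0 := by
  set Pm : Matrix (Fin 3) (Fin 3) k[X] := P.map C + (X : k[X]) • a.map C with hPm
  set F : Matrix (Fin 3) (Fin 3) k[X] := c.map C * Pm.adjugate * b.map C with hF
  have hev : ∀ t : k, (evalRingHom t).mapMatrix Pm = P + t • a := by
    intro t
    ext i j
    have h1 : (evalRingHom t).mapMatrix Pm i j = (C (P i j) + X * C (a i j)).eval t := rfl
    rw [h1, eval_add, eval_mul, eval_C, eval_C, eval_X, Matrix.add_apply, Matrix.smul_apply,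
      smul_eq_mul]
  have hdet : ∀ t : k, Pm.det.eval t = (P + t • a).det := by
    intro t
    rw [← hev t, ← RingHom.map_det]
    rfl
  have hmC : ∀ (t : k) (M : Matrix (Fin 3) (Fin 3) k),
      (evalRingHom t).mapMatrix (M.map C) = M := by
    intro t M
    ext i j
    simp
  have hFe : ∀ t : k, (evalRingHom t).mapMatrix F = c * (P + t • a).adjugate * b := by
    intro t
    rw [hF, map_mul, map_mul, RingHom.map_adjugate, hev, hmC, hmC]
  have hFij : ∀ (t : k) (i j : Fin 3), (F i j).eval t = (c * (P + t • a).adjugate * b) i j := by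
    intro t i j
    rw [← hFe t]
    rfl
  have hd0 : Pm.det ≠ 0 := by
    intro h0
    have := hdet 0
    rw [h0, eval_zero, zero_smul, add_zero] at this
    exact hP this.symm
  have hpoly : ∀ i j : Fin 3, X * F i j = Pm.det * (C (d i j) + X * C (S i j)) := by
    intro i j
    have h1 : X * Pm.det * (X * F i j) = X * Pm.det * (Pm.det * (C (d i j) + X * C (S i j))) := by
      apply Polynomial.funext
      intro t
      simp only [eval_mul, eval_add, eval_X, eval_C]
      rw [hdet, hFij]
      by_cases h0 : (P + t • a).det = 0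
      · rw [h0]; ring
      · have h2 := congrFun (congrFun (h t h0) i) j
        simp only [Matrix.smul_apply, Matrix.add_apply, smul_eq_mul] at h2
        linear_combination (P + t • a).det * h2
    exact mul_left_cancel₀ (mul_ne_zero X_ne_zero hd0) h1
  have hd : d = 0 := by
    ext i j
    have h1 := congrArg (Polynomial.eval 0) (hpoly i j)
    simp only [eval_mul, eval_add, eval_X, eval_C, zero_mul, add_zero] at h1
    rw [hdet, zero_smul, add_zero] at h1
    simpa [hP] using h1.symm
  refine ⟨hd, ?_, ?_⟩
  · intro t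
    ext i j
    have h1 : F i j = Pm.det * C (S i j) := by
      have h2 := hpoly i j
      rw [hd] at h2
      simp only [Matrix.zero_apply, C_0, zero_add] at h2
      apply mul_left_cancel₀ (X_ne_zero (R := k))
      rw [h2]
      ring
    have h2 := congrArg (Polynomial.eval t) h1
    rw [hFij, eval_mul, eval_C, hdet] at h2
    rw [h2]
    simp
  · by_contra hno
    push Not at hno
    have : X * Pm.det = 0 := by
      apply Polynomial.funext
      intro t
      rw [eval_mul, eval_X, eval_zero, hdet]
      by_cases ht : t = 0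
      · rw [ht, zero_mul]
      · rw [hno t ht, mul_zero]
    exact mul_ne_zero X_ne_zero hd0 this

/-- The Schur complement of a matrix of rank three. -/
theorem schur (D1 D2 Q : Matrix (Fin 3) (Fin 3) k)
    (h : (D1 * Q * D1.transpose).det ≠ 0) :
    (D2 * Q * D1.transpose) * (D1 * Q * D1.transpose).adjugate * (D1 * Q * D2.transpose) =
      (D1 * Q * D1.transpose).det • (D2 * Q * D2.transpose) := by
  set M := D1 * Q * D1.transpose with hM
  have hD : D1.det ≠ 0 := by
    intro h0
    apply h
    rw [hM, Matrix.det_mul, Matrix.det_mul, h0, zero_mul, zero_mul]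
  have hQ : Q.det ≠ 0 := by
    intro h0
    apply h
    rw [hM, Matrix.det_mul, Matrix.det_mul, h0, mul_zero, zero_mul]
  have h1 : IsUnit D1.det := isUnit_iff_ne_zero.2 hD
  have h2 : IsUnit Q.det := isUnit_iff_ne_zero.2 hQ
  have hMu : IsUnit M.det := isUnit_iff_ne_zero.2 h
  have h3 : M.adjugate = M.det • M⁻¹ := by
    rw [Matrix.inv_def, smul_smul, Ring.mul_inverse_cancel _ hMu, one_smul]
  have h4 : M⁻¹ = D1.transpose⁻¹ * Q⁻¹ * D1⁻¹ := by
    rw [hM, Matrix.mul_inv_rev, Matrix.mul_inv_rev, Matrix.mul_assoc]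
  have h5 : IsUnit D1.transpose.det := by rwa [Matrix.det_transpose]
  rw [h3, h4, Matrix.mul_smul, Matrix.smul_mul]
  congr 1
  have e1 : D2 * Q * D1.transpose * (D1.transpose⁻¹ * Q⁻¹ * D1⁻¹) = D2 * D1⁻¹ := by
    calc D2 * Q * D1.transpose * (D1.transpose⁻¹ * Q⁻¹ * D1⁻¹)
        = D2 * Q * (D1.transpose * D1.transpose⁻¹) * Q⁻¹ * D1⁻¹ := by
          simp only [Matrix.mul_assoc]
      _ = D2 * (Q * Q⁻¹) * D1⁻¹ := by
          rw [Matrix.mul_nonsing_inv _ h5, Matrix.mul_one, Matrix.mul_assoc D2 Q Q⁻¹]
      _ = D2 * D1⁻¹ := by rw [Matrix.mul_nonsing_inv _ h2, Matrix.mul_one]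
  rw [e1]
  calc D2 * D1⁻¹ * (D1 * Q * D2.transpose) = D2 * (D1⁻¹ * D1) * Q * D2.transpose := by
        simp only [Matrix.mul_assoc]
    _ = D2 * Q * D2.transpose := by rw [Matrix.nonsing_inv_mul _ h1, Matrix.mul_one]

end alg

theorem stmS0 : StmS0 := by
  intro k _ _ _ M0 M1 M2 hF hker
  obtain ⟨A, P, hPs, hPd, -, hM0'⟩ := hF.fin 0
  obtain ⟨B, S, hSs, hSd, -, hM2⟩ := hF.inf
  have hM0 : M0 = A * P * A.transpose := by
    rw [← hM0']
    simp [Mt]
  -- symmetry
  have hsymt : ∀ t, (Mt M0 M1 M2 t).transpose = Mt M0 M1 M2 t := by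
    intro t
    obtain ⟨C, Q, hQs, -, -, hC⟩ := hF.fin t
    rw [hC, Matrix.transpose_mul, Matrix.transpose_mul, Matrix.transpose_transpose, hQs,
      Matrix.mul_assoc]
  have hs0 : M0.transpose = M0 := by
    have := hsymt 0
    simpa [Mt] using this
  have hs2 : M2.transpose = M2 := by
    rw [hM2, Matrix.transpose_mul, Matrix.transpose_mul, Matrix.transpose_transpose, hSs,
      Matrix.mul_assoc]
  have hs1 : M1.transpose = M1 := by
    have := hsymt 1
    simp only [Mt, one_smul, one_pow, Matrix.transpose_add, hs0, hs2] at this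
    exact add_left_cancel (add_right_cancel this)
  obtain ⟨h1, h2, h1A, h1B, h2A, h2B, hAB⟩ := exists_split A B (fun x hA hB => by
    apply hker x
    · rw [hM0, Matrix.mul_assoc, ← Matrix.mulVec_mulVec, ← Matrix.mulVec_mulVec, hA]
      simp
    · rw [hM2, Matrix.mul_assoc, ← Matrix.mulVec_mulVec, ← Matrix.mulVec_mulVec, hB]
      simp)
  have h1A' : A.transpose * h1.transpose = 1 := by
    rw [← Matrix.transpose_mul, h1A, Matrix.transpose_one]
  have h1B' : B.transpose * h1.transpose = 0 := by
    rw [← Matrix.transpose_mul, h1B, Matrix.transpose_zero]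
  have h2A' : A.transpose * h2.transpose = 0 := by
    rw [← Matrix.transpose_mul, h2A, Matrix.transpose_zero]
  have h2B' : B.transpose * h2.transpose = 1 := by
    rw [← Matrix.transpose_mul, h2B, Matrix.transpose_one]
  obtain ⟨a, ha⟩ : ∃ a, a = h1 * M1 * h1.transpose := ⟨_, rfl⟩
  obtain ⟨b, hb⟩ : ∃ b, b = h1 * M1 * h2.transpose := ⟨_, rfl⟩
  obtain ⟨d, hd⟩ : ∃ d, d = h2 * M1 * h2.transpose := ⟨_, rfl⟩
  have hbt : h2 * M1 * h1.transpose = b.transpose := by
    rw [hb, Matrix.transpose_mul, Matrix.transpose_mul, Matrix.transpose_transpose, hs1,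
      Matrix.mul_assoc]
  have e11 : ∀ t, h1 * Mt M0 M1 M2 t * h1.transpose = P + t • a := by
    intro t
    have e0 : h1 * M0 * h1.transpose = P := by
      rw [hM0]
      calc h1 * (A * P * A.transpose) * h1.transpose
          = (h1 * A) * P * (A.transpose * h1.transpose) := by simp only [Matrix.mul_assoc]
        _ = P := by rw [h1A, h1A', Matrix.one_mul, Matrix.mul_one]
    have e2 : h1 * M2 * h1.transpose = 0 := by
      rw [hM2]
      calc h1 * (B * S * B.transpose) * h1.transpose
          = (h1 * B) * S * (B.transpose * h1.transpose) := by simp only [Matrix.mul_assoc]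
        _ = 0 := by rw [h1B, Matrix.zero_mul, Matrix.zero_mul]
    rw [Mt, Matrix.mul_add, Matrix.mul_add, Matrix.add_mul, Matrix.add_mul, Matrix.mul_smul,
      Matrix.mul_smul, Matrix.smul_mul, Matrix.smul_mul, e0, e2, smul_zero, add_zero, ha]
  have e12 : ∀ t, h1 * Mt M0 M1 M2 t * h2.transpose = t • b := by
    intro t
    have e0 : h1 * M0 * h2.transpose = 0 := by
      rw [hM0]
      calc h1 * (A * P * A.transpose) * h2.transpose
          = (h1 * A) * P * (A.transpose * h2.transpose) := by simp only [Matrix.mul_assoc]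
        _ = 0 := by rw [h2A', Matrix.mul_zero]
    have e2 : h1 * M2 * h2.transpose = 0 := by
      rw [hM2]
      calc h1 * (B * S * B.transpose) * h2.transpose
          = (h1 * B) * S * (B.transpose * h2.transpose) := by simp only [Matrix.mul_assoc]
        _ = 0 := by rw [h1B, Matrix.zero_mul, Matrix.zero_mul]
    rw [Mt, Matrix.mul_add, Matrix.mul_add, Matrix.add_mul, Matrix.add_mul, Matrix.mul_smul,
      Matrix.mul_smul, Matrix.smul_mul, Matrix.smul_mul, e0, e2, smul_zero, add_zero, zero_add, hb]
  have e21 : ∀ t, h2 * Mt M0 M1 M2 t * h1.transpose = t • b.transpose := by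
    intro t
    have := congrArg Matrix.transpose (e12 t)
    rw [Matrix.transpose_mul, Matrix.transpose_mul, Matrix.transpose_transpose, hsymt,
      Matrix.transpose_smul] at this
    rw [Matrix.mul_assoc]
    exact this
  have e22 : ∀ t, h2 * Mt M0 M1 M2 t * h2.transpose = t • d + t ^ 2 • S := by
    intro t
    have e0 : h2 * M0 * h2.transpose = 0 := by
      rw [hM0]
      calc h2 * (A * P * A.transpose) * h2.transpose
          = (h2 * A) * P * (A.transpose * h2.transpose) := by simp only [Matrix.mul_assoc]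
        _ = 0 := by rw [h2A', Matrix.mul_zero]
    have e2 : h2 * M2 * h2.transpose = S := by
      rw [hM2]
      calc h2 * (B * S * B.transpose) * h2.transpose
          = (h2 * B) * S * (B.transpose * h2.transpose) := by simp only [Matrix.mul_assoc]
        _ = S := by rw [h2B, h2B', Matrix.one_mul, Matrix.mul_one]
    rw [Mt, Matrix.mul_add, Matrix.mul_add, Matrix.add_mul, Matrix.add_mul, Matrix.mul_smul,
      Matrix.mul_smul, Matrix.smul_mul, Matrix.smul_mul, e0, e2, zero_add, hd]
  obtain ⟨hd0, hbs, t0, ht0, ht0d⟩ := elim P a b b.transpose S d hPd (fun t ht => by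
    obtain ⟨C, Q, hQs, -, -, hC⟩ := hF.fin t
    have c11 : (h1 * C) * Q * (h1 * C).transpose = P + t • a := by
      rw [← e11 t, hC, Matrix.transpose_mul]
      simp only [Matrix.mul_assoc]
    have c12 : (h1 * C) * Q * (h2 * C).transpose = t • b := by
      rw [← e12 t, hC, Matrix.transpose_mul]
      simp only [Matrix.mul_assoc]
    have c21 : (h2 * C) * Q * (h1 * C).transpose = t • b.transpose := by
      rw [← e21 t, hC, Matrix.transpose_mul]
      simp only [Matrix.mul_assoc]
    have c22 : (h2 * C) * Q * (h2 * C).transpose = t • d + t ^ 2 • S := by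
      rw [← e22 t, hC, Matrix.transpose_mul]
      simp only [Matrix.mul_assoc]
    have := schur (h1 * C) (h2 * C) Q (by rw [c11]; exact ht)
    rw [c11, c12, c21, c22] at this
    rw [← this, Matrix.smul_mul, Matrix.smul_mul, Matrix.mul_smul, smul_smul, pow_two])
  have hPu : IsUnit P.det := isUnit_iff_ne_zero.2 hPd
  have hS0 : b.transpose * P⁻¹ * b = S := by
    have h := hbs 0
    rw [zero_smul, add_zero] at h
    have hadj : P.adjugate = P.det • P⁻¹ := by
      rw [Matrix.inv_def, smul_smul, Ring.mul_inverse_cancel _ hPu, one_smul]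
    rw [hadj, Matrix.mul_smul, Matrix.smul_mul] at h
    have := congrArg (fun M => (P.det)⁻¹ • M) h
    simpa only [smul_smul, inv_mul_cancel₀ hPd, one_smul] using this
  have hbd : b.det ≠ 0 := by
    intro h0
    apply hSd
    rw [← hS0, Matrix.det_mul, h0, mul_zero]
  have hbu : IsUnit b.det := isUnit_iff_ne_zero.2 hbd
  have hbtu : IsUnit b.transpose.det := by rwa [Matrix.det_transpose]
  have ha0 : a = 0 := by
    have h := hbs t0
    rw [← hS0] at h
    have h3 : (P + t0 • a).adjugate = (P + t0 • a).det • P⁻¹ := by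
      have h4 := congrArg (fun M => b.transpose⁻¹ * M * b⁻¹) h
      have h5 : b.transpose⁻¹ * (b.transpose * (P + t0 • a).adjugate * b) * b⁻¹ =
          (P + t0 • a).adjugate := by
        calc b.transpose⁻¹ * (b.transpose * (P + t0 • a).adjugate * b) * b⁻¹
            = (b.transpose⁻¹ * b.transpose) * (P + t0 • a).adjugate * (b * b⁻¹) := by
              simp only [Matrix.mul_assoc]
          _ = _ := by
              rw [Matrix.nonsing_inv_mul _ hbtu, Matrix.mul_nonsing_inv _ hbu, Matrix.one_mul,
                Matrix.mul_one]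
      have h6 : b.transpose⁻¹ * ((P + t0 • a).det • (b.transpose * P⁻¹ * b)) * b⁻¹ =
          (P + t0 • a).det • P⁻¹ := by
        rw [Matrix.mul_smul, Matrix.smul_mul]
        congr 1
        calc b.transpose⁻¹ * (b.transpose * P⁻¹ * b) * b⁻¹
            = (b.transpose⁻¹ * b.transpose) * P⁻¹ * (b * b⁻¹) := by
              simp only [Matrix.mul_assoc]
          _ = _ := by
              rw [Matrix.nonsing_inv_mul _ hbtu, Matrix.mul_nonsing_inv _ hbu, Matrix.one_mul,
                Matrix.mul_one]
      rw [h5, h6] at h4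
      exact h4
    have h7 := Matrix.adjugate_mul (P + t0 • a)
    rw [h3, Matrix.smul_mul, Matrix.mul_add, Matrix.nonsing_inv_mul _ hPu, smul_add] at h7
    have h8 : (P + t0 • a).det • (P⁻¹ * (t0 • a)) = 0 := by
      exact add_eq_left.1 h7
    have h9 : P⁻¹ * (t0 • a) = 0 := (smul_eq_zero.1 h8).resolve_left ht0d
    have h10 := congrArg (fun M => P * M) h9
    simp only [Matrix.mul_zero, ← Matrix.mul_assoc, Matrix.mul_nonsing_inv _ hPu,
      Matrix.one_mul] at h10
    exact (smul_eq_zero.1 h10).resolve_left ht0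
  have hM1 : M1 = A * b * B.transpose + B * b.transpose * A.transpose := by
    have hAB' : h1.transpose * A.transpose + h2.transpose * B.transpose = 1 := by
      rw [← Matrix.transpose_mul, ← Matrix.transpose_mul, ← Matrix.transpose_add, hAB,
        Matrix.transpose_one]
    calc M1 = (A * h1 + B * h2) * M1 * (h1.transpose * A.transpose + h2.transpose * B.transpose) := by
          rw [hAB, hAB', Matrix.one_mul, Matrix.mul_one]
      _ = A * a * A.transpose + A * b * B.transpose + (B * (h2 * M1 * h1.transpose) * A.transpose +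
            B * d * B.transpose) := by
          rw [ha, hb, hd]
          simp only [Matrix.mul_add, Matrix.add_mul, Matrix.mul_assoc]
          abel
      _ = _ := by
          rw [ha0, hd0, hbt]
          simp
  have hPis : P⁻¹.transpose = P⁻¹ := by rw [Matrix.transpose_nonsing_inv, hPs]
  refine ⟨A, B * b.transpose * P⁻¹, P, hPs, hPd, hM0, ?_, ?_⟩
  · rw [hM1]
    congr 1
    · rw [Matrix.transpose_mul, Matrix.transpose_mul, Matrix.transpose_transpose, hPis]
      calc A * b * B.transpose = A * (1 : Matrix (Fin 3) (Fin 3) k) * b * B.transpose := by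
            rw [Matrix.mul_one]
        _ = A * (P * P⁻¹) * b * B.transpose := by rw [Matrix.mul_nonsing_inv _ hPu]
        _ = _ := by simp only [Matrix.mul_assoc]
    · calc B * b.transpose * A.transpose
          = B * b.transpose * (1 : Matrix (Fin 3) (Fin 3) k) * A.transpose := by
            rw [Matrix.mul_one]
        _ = B * b.transpose * (P⁻¹ * P) * A.transpose := by rw [Matrix.nonsing_inv_mul _ hPu]
        _ = _ := by simp only [Matrix.mul_assoc]
  · rw [hM2, Matrix.transpose_mul, Matrix.transpose_mul, Matrix.transpose_transpose, hPis, ← hS0]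
    calc B * (b.transpose * P⁻¹ * b) * B.transpose
        = B * (b.transpose * P⁻¹ * (1 : Matrix (Fin 3) (Fin 3) k) * b) * B.transpose := by
          rw [Matrix.mul_one]
      _ = B * (b.transpose * P⁻¹ * (P * P⁻¹) * b) * B.transpose := by
          rw [Matrix.mul_nonsing_inv _ hPu]
      _ = _ := by simp only [Matrix.mul_assoc]

end Pool.Agent.Y73.SM
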